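import Mathlib

open Set Topology Pointwise

namespace Pool.Agent.Results.MP_4e651d_al.No

section
variable {G : Type} [Group G] [TopologicalSpace G]

/-- closed and compactly generated -/
def CG (K : Subgroup G) : Prop :=
  IsClosed (K : Set G) ∧ ∃ C : Set G, IsCompact C ∧ Subgroup.closure C = K

/-- the discrete residual -/
def Res (K : Subgroup G) : Subgroup G :=
  sInf {O : Subgroup G | IsOpen (O : Set G) ∧
    ∀ k ∈ K, (fun x => k * x) '' (O : Set G) = (fun x => x * k) '' (O : Set G)}

def Le (K L : Subgroup G) : Prop := K ≤ Res L ∨ K = L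

/-- `H` satisfies the recursion defining the residual hierarchy below `ω₁` -/
def Hier (H : Ordinal.{0} → Set (Subgroup G)) : Prop :=
  H 0 = {⊥} ∧ H 1 = {K | CG K ∧ Res K = ⊥} ∧
    ∀ a, 1 < a → a < Ordinal.omega 1 →
      H a = {K | CG K ∧ ∀ L, CG L → Le L K → L ≠ K → ∃ b < a, L ∈ H b}
end

theorem result (G : Type) [Group G] [TopologicalSpace G] [IsTopologicalGroup G] [T2Space G]
    [TotallyDisconnectedSpace G] [LocallyCompactSpace G] [SecondCountableTopology G]
    (H : Ordinal.{0} → Set (Subgroup G)) (hH : Hier H)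
    (hw : ∀ K : Subgroup G, CG K → ∃ a < Ordinal.omega 1, K ∈ H a) :
    IsPartialOrder {K : Subgroup G // CG K} fun K L => Le K.1 L.1 := by
  have vd : Res (⊥ : Subgroup G) = ⊥ := by
    refine (Subgroup.eq_bot_iff_forall _).2 fun g hg => by_contra fun h1 => ?_
    obtain ⟨C, hC, hC1, hc⟩ := local_compact_nhds (isOpen_compl_singleton.mem_nhds (Ne.symm h1))
    obtain ⟨W, hW, h1W, hWC⟩ := loc_compact_Haus_tot_disc_of_zero_dim.mem_nhds_iff.1 hC
    obtain ⟨V, hV, hWV⟩ := compact_open_separated_mul_right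
      (hc.of_isClosed_subset hW.1 hWC) hW.2 Subset.rfl
    let O : Subgroup G :=
      { carrier := {x | ∀ w, w ∈ W ↔ w * x ∈ W}
        one_mem' := by simp
        mul_mem' := fun {a b} ha hb w => by rw [← mul_assoc, ← hb, ← ha]
        inv_mem' := fun {a} ha w => by rw [ha (w * a⁻¹)]; simp }
    have hO : IsOpen (O : Set G) := O.isOpen_of_mem_nhds (g := 1) <|
      Filter.mem_of_superset (Filter.inter_mem hV (inv_mem_nhds_one G hV)) fun x hx w =>
        ⟨fun h => hWV (mul_mem_mul h hx.1), fun h => by simpa using hWV (mul_mem_mul h hx.2)⟩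
    have := Subgroup.mem_sInf.1 hg O ⟨hO, fun k hk => by rw [Subgroup.mem_bot.1 hk]; simp⟩
    exact hC1 (hWC (by simpa using (this 1).1 h1W)) rfl
  have key : ∀ (a : Ordinal.{0}) (K L : Subgroup G), a < Ordinal.omega 1 → K ∈ H a → CG K → CG L →
      K ≤ Res L → L ≤ Res K → K = L := fun a => by
    induction a using WellFoundedLT.induction with
    | ind a ih =>
      intro K L ha hK cK cL h1 h2
      rcases lt_trichotomy a 1 with h | rfl | h
      · rw [Order.lt_one_iff.1 h, hH.1, mem_singleton_iff] at hK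
        rw [hK, vd, le_bot_iff] at h2
        rw [hK, h2]
      · rw [hH.2.1] at hK
        rw [hK.2, le_bot_iff] at h2
        rw [h2, vd, le_bot_iff] at h1
        rw [h1, h2]
      · rw [hH.2.2 a h ha] at hK
        by_contra hne
        obtain ⟨b, hb, hL⟩ := hK.2 L cL (.inl h2) (Ne.symm hne)
        exact hne (ih b hb L K (hb.trans ha) hL cL cK h2 h1).symm
  refine { refl := fun K => .inr rfl, trans := ?_, antisymm := ?_ }
  · rintro ⟨K, cK⟩ ⟨L, cL⟩ ⟨M, cM⟩ (h1 | rfl) h2
    · rcases h2 with h2 | rfl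
      · refine .inl (le_sInf fun O hO => h1.trans (sInf_le ⟨hO.1, fun k hk => ?_⟩))
        have hk' : k ∈ O := h2.trans (sInf_le hO) hk
        ext x
        simp [O.mul_mem_cancel_left (O.inv_mem hk'), O.mul_mem_cancel_right (O.inv_mem hk')]
      · exact .inl h1
    · exact h2
  · rintro ⟨K, cK⟩ ⟨L, cL⟩ (h1 | h1) (h2 | h2)
    · obtain ⟨a, ha, hK⟩ := hw K cK
      exact Subtype.ext (key a K L ha hK cK cL h1 h2)
    · exact Subtype.ext h2.symm
    · exact Subtype.ext h1
    · exact Subtype.ext h1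

end Pool.Agent.Results.MP_4e651d_al.No
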